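import Pool.Agent.KS6_84.Dly.Model

set_option autoImplicit false

namespace Pool.Agent.KS6_84.Dly

open Set

variable {f : ℝ → ℝ}

lemma Wild.nonneg (hf : Wild f) {t : ℝ} (ht : 0 ≤ t) : 0 ≤ f t := by
  have := hf.mono (mem_Ici.2 le_rfl) (mem_Ici.2 ht) ht
  rwa [hf.zero] at this

lemma Wild.pos (hf : Wild f) {t : ℝ} (ht : 0 < t) : 0 < f t := by
  obtain ⟨s, s0, s1, s2⟩ := hf.small 0 (t / 2) (by positivity)
  have h1 := hf.mono (a := 2 * s) (b := t) (mem_Ici.2 (by linarith)) (mem_Ici.2 ht.le) (by linarith)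
  rw [zero_mul] at s2
  linarith

/-- The first property. -/
lemma Wild.smallc (hf : Wild f) {R D : ℝ} (hR : 0 < R) (hD : 0 < D) :
    ∃ δ : ℝ, 0 < δ ∧ 0 < f (2 * δ) ∧ R * f (2 * δ) ≤ D ∧ R * f (2 * δ) ≤ f (5 / 2 * δ) := by
  obtain ⟨Q, hQ⟩ : ∃ Q, Q = max R (R * f 10 / D) := ⟨_, rfl⟩
  have hQR : R ≤ Q := hQ ▸ le_max_left _ _
  have hQ0 : 0 < Q := hR.trans_le hQR
  have hQD : R * f 10 ≤ Q * D := by
    rw [← div_le_iff₀ hD, hQ]
    exact le_max_right _ _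
  have key : ∃ t : ℝ, 0 < t ∧ t < 8 ∧ Q * f t ≤ f (5 / 4 * t) := by
    obtain ⟨t, t0, t1, t2⟩ := hf.small (Q ^ 4) 1 one_pos
    by_contra! h
    have h0 := h t t0 (by linarith)
    have h1 := h (5 / 4 * t) (by positivity) (by linarith)
    have h2 := h (5 / 4 * (5 / 4 * t)) (by positivity) (by linarith)
    have h3 := h (5 / 4 * (5 / 4 * (5 / 4 * t))) (by positivity) (by linarith)
    have h4 := hf.mono (a := 2 * t) (b := 5 / 4 * (5 / 4 * (5 / 4 * (5 / 4 * t))))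
      (mem_Ici.2 (by linarith)) (mem_Ici.2 (by positivity)) (by linarith)
    have e1 := mul_le_mul_of_nonneg_left h0.le hQ0.le
    have e2 := mul_le_mul_of_nonneg_left (h1.le.trans e1) hQ0.le
    have e3 := mul_le_mul_of_nonneg_left (h2.le.trans e2) hQ0.le
    have : Q * (Q * (Q * (Q * f t))) = Q ^ 4 * f t := by ring
    linarith
  obtain ⟨t, t0, t1, t2⟩ := key
  have p := hf.pos t0
  refine ⟨t / 2, by positivity, ?_, ?_, ?_⟩
  · rw [show 2 * (t / 2) = t by ring]; exact p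
  · rw [show 2 * (t / 2) = t by ring]
    have h1 := hf.mono (a := 5 / 4 * t) (b := 10) (mem_Ici.2 (by linarith)) (mem_Ici.2 (by norm_num))
      (by linarith)
    have h2 : Q * (R * f t) ≤ Q * D := by
      have := mul_le_mul_of_nonneg_left (t2.trans h1) hR.le
      linarith [mul_left_comm Q R (f t)]
    exact le_of_mul_le_mul_left h2 hQ0
  · rw [show 2 * (t / 2) = t by ring, show 5 / 2 * (t / 2) = 5 / 4 * t by ring]
    exact (mul_le_mul_of_nonneg_right hQR p.le).trans t2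

lemma Wild.unbounded (hf : Wild f) (B : ℝ) : ∃ t, 0 ≤ t ∧ B ≤ f t := by
  obtain ⟨s, s0, s1⟩ := hf.large 1 one_pos (|B| / f 1) 1
  refine ⟨s + 1, by linarith, ?_⟩
  have p := hf.pos one_pos
  have h1 := hf.mono (a := 1) (b := s) (mem_Ici.2 (by norm_num)) (mem_Ici.2 (by linarith)) s0
  have h2 : |B| / f 1 * f 1 ≤ |B| / f 1 * f s := mul_le_mul_of_nonneg_left h1 (by positivity)
  rw [div_mul_cancel₀ _ p.ne'] at h2
  linarith [le_abs_self B]

/-- The second property. -/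
lemma Wild.largec (hf : Wild f) {δ : ℝ} (hδ : 0 < δ) (c K : ℝ) :
    ∃ s : ℝ, δ < s ∧ c * f s + K < 3 / 4 * f (s + δ) := by
  obtain ⟨t, t0, t1⟩ := hf.unbounded 1
  obtain ⟨s, s0, s1⟩ := hf.large δ hδ (4 / 3 * (|c| + |K|)) (max t (δ + 1))
  have h1 : t ≤ s := (le_max_left _ _).trans s0
  have h2 : δ + 1 ≤ s := (le_max_right _ _).trans s0
  refine ⟨s, by linarith, ?_⟩
  have h3 : 1 ≤ f s := t1.trans (hf.mono (mem_Ici.2 t0) (mem_Ici.2 (by linarith)) h1)
  have h4 : c * f s ≤ |c| * f s := mul_le_mul_of_nonneg_right (le_abs_self c) (by linarith)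
  have h5 : K ≤ |K| * f s := (le_abs_self K).trans (le_mul_of_one_le_right (abs_nonneg _) h3)
  have h6 : 4 / 3 * (|c| + |K|) * f s = 4 / 3 * (|c| * f s + |K| * f s) := by ring
  rw [h6] at s1
  linarith

end Pool.Agent.KS6_84.Dly
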