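import Mathlib

/-!
# Online matching with delay on an arbitrary metric space: the model
-/

set_option autoImplicit false

open MeasureTheory
open scoped ENNReal BigOperators

namespace Pool.Agent.KS6_84.Dly

/-- A sequence of requests at points of `V`: the `i`-th request (`i < len`) arrives at
time `time i` at the point `loc i`.  (The values for `i ≥ len` have no meaning.) -/
structure Input (V : Type) where
  /-- the number of requests -/
  len : ℕ
  /-- the arrival times -/
  time : ℕ → ℝ
  /-- the locations -/
  loc : ℕ → V
  even : Even len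
  nonneg : ∀ i < len, 0 ≤ time i
  sorted : ∀ i j, i ≤ j → j < len → time i ≤ time j

/-- A solution: the partner of every request and the time at which the two are matched. -/
structure Output where
  /-- the partner of a request -/
  partner : ℕ → ℕ
  /-- the time at which a request is matched -/
  at_ : ℕ → ℝ

variable {V : Type}

/-- The output is a perfect matching of the requests, and no request is matched before its
arrival. -/
def Output.Solves (o : Output) (σ : Input V) : Prop :=
  ∀ i < σ.len, o.partner i < σ.len ∧ o.partner i ≠ i ∧ o.partner (o.partner i) = i ∧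
    o.at_ (o.partner i) = o.at_ i ∧ σ.time i ≤ o.at_ i

/-- The cost: the delay costs, and the connection cost `d x y` for every pair of matched requests
at the points `x`, `y` (every pair is counted twice in the sum, with half of its cost). -/
noncomputable def cost (f : ℝ → ℝ) (d : V → V → ℝ) (σ : Input V) (o : Output) : ℝ :=
  ∑ i ∈ Finset.range σ.len,
    (f (o.at_ i - σ.time i) + d (σ.loc i) (σ.loc (o.partner i)) / 2)

/-- The optimal offline cost. -/
noncomputable def opt (f : ℝ → ℝ) (d : V → V → ℝ) (σ : Input V) : ℝ :=
  sInf {x | ∃ o : Output, o.Solves σ ∧ x = cost f d σ o}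

/-- The two sequences have the same requests with arrival time at most `T`. -/
def Agree (T : ℝ) (σ σ' : Input V) : Prop :=
  ∀ i, ((i < σ.len ∧ σ.time i ≤ T) ∨ (i < σ'.len ∧ σ'.time i ≤ T)) →
    i < σ.len ∧ i < σ'.len ∧ σ.time i = σ'.time i ∧ σ.loc i = σ'.loc i

/-- A deterministic online algorithm: what it does up to time `T` depends only on the requests that
arrive up to time `T`. -/
structure Online (A : Input V → Output) : Prop where
  solves : ∀ σ, (A σ).Solves σ
  online : ∀ (T : ℝ) (σ σ' : Input V), Agree T σ σ' → ∀ i < σ.len, (A σ).at_ i ≤ T →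
    (A σ').at_ i = (A σ).at_ i ∧ (A σ').partner i = (A σ).partner i

/-- A randomised online algorithm: a probability distribution over deterministic ones. -/
structure Randomized (V : Type) where
  /-- the source of randomness -/
  Ω : Type
  [mΩ : MeasurableSpace Ω]
  /-- its distribution -/
  μ : Measure Ω
  prob : IsProbabilityMeasure μ
  /-- the deterministic algorithms -/
  alg : Ω → Input V → Output
  online : ∀ ω, Online (alg ω)
  meas_at : ∀ σ i, Measurable fun ω => (alg ω σ).at_ i
  meas_partner : ∀ σ i, Measurable fun ω => (alg ω σ).partner i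

attribute [instance] Randomized.mΩ Randomized.prob

/-- The algorithm is `c`-competitive: on every fixed sequence its expected cost is at most
`c * OPT` up to an additive constant. -/
def Randomized.Competitive (A : Randomized V) (f : ℝ → ℝ) (d : V → V → ℝ) (c : ℝ) : Prop :=
  ∃ b : ℝ, ∀ σ : Input V,
    ∫⁻ ω, ENNReal.ofReal (cost f d σ (A.alg ω σ)) ∂A.μ ≤ ENNReal.ofReal (c * opt f d σ + b)

/-- `d` is a (pseudo)metric; the triangle inequality is not needed. -/
structure IsDist (d : V → V → ℝ) : Prop where
  self : ∀ x, d x x = 0
  nonneg : ∀ x y, 0 ≤ d x y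
  symm : ∀ x y, d x y = d y x

/-- The class of delay functions. -/
structure DelayFunction (f : ℝ → ℝ) : Prop where
  convex : ConvexOn ℝ (Set.Ici 0) f
  mono : MonotoneOn f (Set.Ici 0)
  cont : ContinuousOn f (Set.Ici 0)
  unbounded : ∀ B : ℝ, ∃ t, 0 ≤ t ∧ B ≤ f t
  zero : f 0 = 0
  deriv_zero : HasDerivWithinAt f 0 (Set.Ici 0) 0

/-- The delay functions of the theorem: nondecreasing on `[0, ∞)`, `f 0 = 0`, not doubling at `0`
(`f (2 t) / f t` is unbounded as `t → 0`), and, for every shift `δ > 0`, the ratio
`f (s + δ) / f s` is unbounded as `s → ∞`. -/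
structure Wild (f : ℝ → ℝ) : Prop where
  mono : MonotoneOn f (Set.Ici 0)
  zero : f 0 = 0
  small : ∀ C ε : ℝ, 0 < ε → ∃ t, 0 < t ∧ t < ε ∧ C * f t < f (2 * t)
  large : ∀ δ : ℝ, 0 < δ → ∀ C S : ℝ, ∃ s, S ≤ s ∧ C * f s < f (s + δ)

end Pool.Agent.KS6_84.Dly
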